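import Pool.Agent.Helper18.PS.St

/-!
# Project PS, module C5
-/

set_option autoImplicit false

namespace Pool.Agent.Helper83.PS

open Finset
open Nat (totient)
open Pool.Agent.Helper18.PS
open Pool.Agent.Helper30.LQ (StSMT)
open Pool.Agent.Helper94.DN (StRAN)

private lemma keyinj {z m A B l l' n n' : ℕ} (hm : 1 ≤ m) (hz : 1 ≤ z) (hl : z < l)
    (hl' : z < l') (h1 : n + m = m * (A * l * B)) (h1' : n' + m = m * (A * l' * B))
    (hAB : A * B ≠ 2)
    (h2 : totient (sg m) * B * totient A * (l - 1) + 2 * totient m = totient m * A * B * l)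
    (h2' : totient (sg m) * B * totient A * (l' - 1) + 2 * totient m = totient m * A * B * l') :
    n = n' := by
  have hll : l = l' := by
    by_contra hne
    obtain ⟨k, rfl⟩ : ∃ k, l = k + 1 := ⟨l - 1, by omega⟩
    obtain ⟨k', rfl⟩ : ∃ k, l' = k + 1 := ⟨l' - 1, by omega⟩
    rw [Nat.add_sub_cancel] at h2 h2'
    have hφ : 0 < totient m := Nat.totient_pos.2 hm
    generalize totient (sg m) * B * totient A = U at h2 h2'
    have hV : ∃ V : ℕ, V = totient m * A * B := ⟨_, rfl⟩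
    obtain ⟨V, hV⟩ := hV
    rw [← hV] at h2 h2'
    have h3 : (U : ℤ) * k + 2 * (totient m : ℤ) = V * (k + 1) := by exact_mod_cast h2
    have h3' : (U : ℤ) * k' + 2 * (totient m : ℤ) = V * (k' + 1) := by exact_mod_cast h2'
    have e1 : ((U : ℤ) - V) * ((k : ℤ) - k') = 0 := by linear_combination h3 - h3'
    have e2 : (U : ℤ) - V = 0 := by
      rcases mul_eq_zero.1 e1 with h | h
      · exact h
      · exact absurd (by omega) hne
    have e3 : (V : ℤ) = 2 * (totient m : ℤ) := by linear_combination (-1) * h3 + (k : ℤ) * e2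
    have e4 : V = 2 * totient m := by exact_mod_cast e3
    apply hAB
    apply Nat.eq_of_mul_eq_mul_left hφ
    rw [← mul_assoc, ← hV, e4, mul_comm]
  subst hll
  omega

/-- C5. -/
theorem hC5 : StC5 := by
  intro z N hz hN
  classical
  have hzr : (0 : ℝ) < z := by exact_mod_cast hz
  have hE : ∀ n : ℕ, E5 z n → ∃ m A B l : ℕ, 1 ≤ m ∧ z < l ∧ n + m = m * (A * l * B) ∧ A * B ≠ 2 ∧
      totient (sg m) * B * totient A * (l - 1) + 2 * totient m = totient m * A * B * l :=
    fun n h => h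
  choose! m A B l h using hE
  obtain ⟨T, hT⟩ : ∃ T : ℝ, T = 2 * N / z := ⟨_, rfl⟩
  have hT0 : 0 ≤ T := by rw [hT]; positivity
  obtain ⟨M, hM⟩ : ∃ M : ℕ, M = 2 * N := ⟨_, rfl⟩
  have hcard : ((Icc 1 N).filter (fun n => E5 z n)).card ≤
      ((Icc 1 M ×ˢ Icc 1 M).sigma
        (fun c : ℕ × ℕ => Icc 1 ⌊T / ((c.1 : ℝ) * c.2)⌋₊)).card := by
    refine Finset.card_le_card_of_injOn (fun n => ⟨(m n, A n), B n⟩) ?_ ?_
    · intro n hn
      obtain ⟨hn1, hn2⟩ := Finset.mem_filter.1 (Finset.mem_coe.1 hn)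
      obtain ⟨hn3, hn4⟩ := Finset.mem_Icc.1 hn1
      obtain ⟨k1, k2, k3, -, -⟩ := h n hn2
      have hX : 2 ≤ A n * l n * B n := by
        by_contra hcon
        have h01 : A n * l n * B n = 0 ∨ A n * l n * B n = 1 := by omega
        rcases h01 with h0 | h0 <;> rw [h0] at k3 <;> omega
      have hmn : m n ≤ n := by
        have : m n * 2 ≤ m n * (A n * l n * B n) := Nat.mul_le_mul_left _ hX
        omega
      have hA : 1 ≤ A n := by
        rcases Nat.eq_zero_or_pos (A n) with h0 | h0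
        · rw [h0] at hX; simp at hX
        · exact h0
      have hB : 1 ≤ B n := by
        rcases Nat.eq_zero_or_pos (B n) with h0 | h0
        · rw [h0] at hX; simp at hX
        · exact h0
      have hle : m n * (A n * l n * B n) ≤ M := by omega
      have hAM : A n ≤ M := by
        calc A n = 1 * (A n * 1 * 1) := by ring
          _ ≤ m n * (A n * l n * B n) :=
            Nat.mul_le_mul k1 (Nat.mul_le_mul (Nat.mul_le_mul_left _ (by omega)) hB)
          _ ≤ M := hle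
      have hBf : B n ≤ ⌊T / ((m n : ℝ) * A n)⌋₊ := by
        apply Nat.le_floor
        have hmr : (0 : ℝ) < m n := by exact_mod_cast k1
        have hAr : (0 : ℝ) < A n := by exact_mod_cast hA
        rw [le_div_iff₀ (by positivity), hT, le_div_iff₀ hzr]
        have h5 : B n * (m n * A n) * z ≤ 2 * N := by
          calc B n * (m n * A n) * z ≤ B n * (m n * A n) * l n := Nat.mul_le_mul_left _ k2.le
            _ = m n * (A n * l n * B n) := by ring
            _ ≤ 2 * N := by omega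
        exact_mod_cast h5
      simp only [Finset.coe_sigma, Set.mem_sigma_iff, Finset.mem_coe, Finset.mem_product,
        Finset.mem_Icc]
      exact ⟨⟨⟨k1, by omega⟩, hA, hAM⟩, hB, hBf⟩
    · intro n hn n' hn' he
      obtain ⟨-, hn2⟩ := Finset.mem_filter.1 (Finset.mem_coe.1 hn)
      obtain ⟨-, hn2'⟩ := Finset.mem_filter.1 (Finset.mem_coe.1 hn')
      obtain ⟨k1, k2, k3, k4, k5⟩ := h n hn2
      obtain ⟨k1', k2', k3', k4', k5'⟩ := h n' hn2'
      simp only [Sigma.mk.injEq, Prod.mk.injEq, heq_eq_eq] at he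
      obtain ⟨⟨e1, e2⟩, e3⟩ := he
      rw [← e1, ← e2, ← e3] at k3' k5'
      exact keyinj k1 hz k2 k2' k3 k3' k4 k5 k5'
  have hsum : (((Icc 1 M ×ˢ Icc 1 M).sigma
      (fun c : ℕ × ℕ => Icc 1 ⌊T / ((c.1 : ℝ) * c.2)⌋₊)).card : ℝ) ≤
      T * (∑ i ∈ Icc 1 M, (i : ℝ)⁻¹) ^ 2 := by
    rw [Finset.card_sigma, Nat.cast_sum]
    calc ∑ c ∈ Icc 1 M ×ˢ Icc 1 M, ((Icc 1 ⌊T / ((c.1 : ℝ) * c.2)⌋₊).card : ℝ)
        ≤ ∑ c ∈ Icc 1 M ×ˢ Icc 1 M, T * ((c.1 : ℝ)⁻¹ * (c.2 : ℝ)⁻¹) := by
          refine Finset.sum_le_sum fun c _ => ?_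
          rw [Nat.card_Icc, Nat.add_sub_cancel]
          refine (Nat.floor_le (by positivity)).trans (le_of_eq ?_)
          rw [div_eq_mul_inv, mul_inv]
      _ = T * (∑ i ∈ Icc 1 M, (i : ℝ)⁻¹) ^ 2 := by
          rw [← Finset.mul_sum, sq, Finset.sum_mul_sum, Finset.sum_product]
  have hharm : (∑ i ∈ Icc 1 M, (i : ℝ)⁻¹) ≤ 1 + Real.log (2 * N) := by
    have e := harmonic_le_one_add_log M
    rw [harmonic_eq_sum_Icc] at e
    push_cast at e
    rw [hM] at e ⊢
    push_cast at e ⊢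
    exact e
  have hpos : 0 ≤ ∑ i ∈ Icc 1 M, (i : ℝ)⁻¹ := Finset.sum_nonneg fun i _ => by positivity
  calc (((Icc 1 N).filter (fun n => E5 z n)).card : ℝ)
      ≤ _ := by exact_mod_cast hcard
    _ ≤ _ := hsum
    _ ≤ T * (1 + Real.log (2 * N)) ^ 2 :=
        mul_le_mul_of_nonneg_left (pow_le_pow_left₀ hpos hharm 2) hT0
    _ = 2 * N / z * (1 + Real.log (2 * N)) ^ 2 := by rw [hT]

end Pool.Agent.Helper83.PS
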